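import Mathlib

open Filter Topology

namespace Pool.Agent.H30.SXC

section group
variable (p : ℕ) (G : Type) [Group G] [TopologicalSpace G]

/-- `G` is a pro-`p` group: a compact, Hausdorff, totally disconnected topological group whose open
normal subgroups have `p`-power index -/
def IsProP : Prop :=
  IsTopologicalGroup G ∧ CompactSpace G ∧ T2Space G ∧ TotallyDisconnectedSpace G ∧
    ∀ U : Subgroup G, U.Normal → IsOpen (U : Set G) → ∃ k : ℕ, U.index = p ^ k

variable {G} in
/-- some `d` elements of the subgroup `H` generate a dense subgroup of `H` -/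
def GenBy (H : Subgroup G) (d : ℕ) : Prop :=
  ∃ s : Fin d → G, (∀ i, s i ∈ H) ∧ (H : Set G) ⊆ closure (Subgroup.closure (Set.range s) : Set G)

/-- finite rank: one bound for the number of topological generators of all closed subgroups -/
def FiniteRank : Prop :=
  ∃ r : ℕ, ∀ H : Subgroup G, IsClosed (H : Set G) → ∃ d : ℕ, d ≤ r ∧ GenBy H d

variable {G} in
/-- the differential of the complex of inhomogeneous cochains with values in the trivial
module `F_p` -/
def dco (n : ℕ) (f : (Fin n → G) → ZMod p) (g : Fin (n + 1) → G) : ZMod p :=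
  f (fun i => g i.succ) + ∑ j : Fin (n + 1), (-1) ^ (j.1 + 1) * f (Fin.contractNth j (· * ·) g)

variable {G} in
/-- the `n`-cochain `f` is continuous, that is, locally constant on `G^n` -/
def IsCont {n : ℕ} (f : (Fin n → G) → ZMod p) : Prop := IsLocallyConstant f

/-- cohomological dimension at most `d`: for all `n ≥ d` every continuous `(n+1)`-cocycle is the
coboundary of a continuous `n`-cochain, that is, `H^m(G, F_p) = 0` for all `m > d` -/
def CdLE (d : ℕ) : Prop :=
  ∀ n : ℕ, d ≤ n → ∀ f : (Fin (n + 1) → G) → ZMod p, IsCont p f → (∀ g, dco p (n + 1) f g = 0) →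
    ∃ h : (Fin n → G) → ZMod p, IsCont p h ∧ ∀ g, dco p n h g = f g

end group

section algebra
variable (p : ℕ) {R : Type} [Ring R] [Algebra (ZMod p) R]

/-- `I^n`: the span of the products of `n` elements of `I` -/
def power (I : Set R) (n : ℕ) : Set R :=
  Submodule.span (ZMod p) {x : R | ∃ f : Fin n → R, (∀ i, f i ∈ I) ∧ x = (List.ofFn f).prod}

/-- `dim V/W = d`: some `d` elements of `V` form a basis of `V` modulo `W` -/
def DimMod (V W : Set R) (d : ℕ) : Prop :=
  ∃ b : Fin d → R, (∀ i, b i ∈ V) ∧ ∀ x ∈ V, ∃! c : Fin d → ZMod p, x - ∑ i, c i • b i ∈ W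

end algebra

section completed
variable (p : ℕ) (G : Type) [Group G] [TopologicalSpace G] (R : Type) [Ring R] [Algebra (ZMod p) R]

variable {G} in
/-- a family of elements `f_U` of `F_p[G/U]`, `U` over the open normal subgroups of `G`, is
compatible if `f_U` maps to `f_V` whenever `U ≤ V` -/
def IsCompat (f : ∀ U : OpenNormalSubgroup G, MonoidAlgebra (ZMod p) (G ⧸ U.toSubgroup)) : Prop :=
  ∀ (U V : OpenNormalSubgroup G) (h : U.toSubgroup ≤ V.toSubgroup),
    MonoidAlgebra.mapDomain (QuotientGroup.map U.toSubgroup V.toSubgroup (MonoidHom.id G) h) (f U) =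
      f V

variable {G R} in
/-- `R`, with the algebra homomorphisms `π U : R → F_p[G/U]`, is the completed group algebra
`F_p[[G]] = lim F_p[G/U]`: the `π U x` are compatible, and every compatible family comes from
exactly one `x` -/
def IsCGA (π : ∀ U : OpenNormalSubgroup G, R →ₐ[ZMod p] MonoidAlgebra (ZMod p) (G ⧸ U.toSubgroup)) :
    Prop :=
  (∀ x, IsCompat p fun U => π U x) ∧ ∀ f, IsCompat p f → ∃! x, ∀ U, π U x = f U

/-- `R` is the completed group algebra of `G`, and `I` is its augmentation ideal: all `x` whose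
image in each `F_p[G/U]` has augmentation `0` -/
def IsAugIdeal (I : Set R) : Prop :=
  ∃ π : (∀ U : OpenNormalSubgroup G, R →ₐ[ZMod p] MonoidAlgebra (ZMod p) (G ⧸ U.toSubgroup)),
    IsCGA p π ∧ ∀ x, x ∈ I ↔
      ∀ U, MonoidAlgebra.lift (ZMod p) (ZMod p) (G ⧸ U.toSubgroup) 1 (π U x) = 0

end completed

end Pool.Agent.H30.SXC
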