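import Mathlib
import Pool.Agent.H30.SXC.Defs
import Pool.Agent.H82.PRP.Growth
import Pool.Agent.H82.PRP.Stmts

open Filter Topology
open Pool.Agent.H82

namespace Pool.Agent.H30.SXC

variable {p : ℕ} {G : Type} [Group G] [TopologicalSpace G]

lemma isProP_of [IsTopologicalGroup G] [CompactSpace G] [T2Space G] [TotallyDisconnectedSpace G]
    (h : PRP.IsProP p G) : IsProP p G := by
  refine ⟨inferInstance, inferInstance, inferInstance, inferInstance, fun U hN hU => ?_⟩
  exact h { toOpenSubgroup := ⟨U, hU⟩, isNormal' := hN }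

lemma genBy_top {d : ℕ} (h : PRP.GenBy G d) : GenBy (⊤ : Subgroup G) d := by
  obtain ⟨s, hs⟩ := h
  refine ⟨s, fun i => trivial, fun x _ => ?_⟩
  rw [mem_closure_iff]
  exact fun o ho hx => hs o ho ⟨x, hx⟩

lemma genBy_sub {H : Subgroup G} {d : ℕ} (h : GenBy H d) : PRP.GenBy H d := by
  obtain ⟨s, hs, hcl⟩ := h
  refine ⟨fun i => ⟨s i, hs i⟩, fun U hU hne => ?_⟩
  obtain ⟨O, hO, rfl⟩ := isOpen_induced_iff.mp hU
  obtain ⟨u, hu⟩ := hne
  obtain ⟨y, hyO, hy⟩ := mem_closure_iff.mp (hcl u.2) O hO hu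
  have hmap : (Subgroup.closure (Set.range fun i => (⟨s i, hs i⟩ : H))).map H.subtype =
      Subgroup.closure (Set.range s) := by
    rw [MonoidHom.map_closure]
    congr 1
    ext z
    simp
  have hy' : y ∈ (Subgroup.closure (Set.range fun i => (⟨s i, hs i⟩ : H))).map H.subtype := by
    rw [hmap]
    exact hy
  obtain ⟨z, hz, rfl⟩ := hy'
  exact ⟨z, hyO, hz⟩

lemma not_finiteRank (h : ¬ PRP.FiniteRank G) : ¬ FiniteRank G := by
  rintro ⟨r, hr⟩
  refine h ⟨r, fun H hH => ?_⟩
  obtain ⟨d, hd, hd'⟩ := hr H hH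
  exact ⟨d, hd, genBy_sub hd'⟩

lemma cdLE_of {d : ℕ} (h : PRP.CdLE p G d) : CdLE p G d := by
  intro n hn f hf hdf
  obtain ⟨g, hg, hgf⟩ := h n hn f hf (funext fun x => hdf x)
  exact ⟨g, hg, fun x => congrFun hgf x⟩

/-- the projections of the completed group algebra -/
noncomputable def proj (p : ℕ) (G : Type) [Group G] [TopologicalSpace G]
    (U : OpenNormalSubgroup G) :
    PRP.CGA p G →ₐ[ZMod p] MonoidAlgebra (ZMod p) (G ⧸ U.toSubgroup) where
  toFun f := f.1 U
  map_one' := rfl
  map_mul' _ _ := rfl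
  map_zero' := rfl
  map_add' _ _ := rfl
  commutes' _ := rfl

lemma isAugIdeal : IsAugIdeal p G (PRP.CGA p G) (PRP.augIhat p G : Set (PRP.CGA p G)) := by
  refine ⟨proj p G, ⟨fun x U V h => x.2 U V h, fun f hf => ?_⟩, fun x => Iff.rfl⟩
  refine ⟨⟨f, hf⟩, fun U => rfl, fun y hy => ?_⟩
  exact Subtype.ext (funext fun U => hy U)

lemma power_eq {R : Type} [Ring R] [Algebra (ZMod p) R] (I : Submodule (ZMod p) R) (n : ℕ) :
    power p (I : Set R) n = (I ^ n : Submodule (ZMod p) R) := by
  rw [Submodule.pow_eq_span_pow_set]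
  unfold power
  congr 2
  ext x
  rw [Set.mem_pow]
  constructor
  · rintro ⟨f, hf, rfl⟩
    exact ⟨fun i => ⟨f i, hf i⟩, rfl⟩
  · rintro ⟨f, rfl⟩
    exact ⟨fun i => f i, fun i => (f i).2, rfl⟩

lemma dimMod_of_finite [Fact p.Prime] {R : Type} [Ring R] [Algebra (ZMod p) R]
    (V W : Submodule (ZMod p) R) [Module.Finite (ZMod p) (↥V ⧸ W.comap V.subtype)] :
    DimMod p (V : Set R) (W : Set R) (Module.finrank (ZMod p) (↥V ⧸ W.comap V.subtype)) := by
  set B := Module.finBasis (ZMod p) (↥V ⧸ W.comap V.subtype)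
  choose b hb using fun i => Submodule.mkQ_surjective _ (B i)
  refine ⟨fun i => (b i : R), fun i => (b i).2, fun x hx => ?_⟩
  have key : ∀ c : Fin (Module.finrank (ZMod p) (↥V ⧸ W.comap V.subtype)) → ZMod p,
      x - ∑ i, c i • (b i : R) ∈ (W : Set R) ↔
        (W.comap V.subtype).mkQ ⟨x, hx⟩ = ∑ i, c i • B i := by
    intro c
    have h1 : ∑ i, c i • B i = (W.comap V.subtype).mkQ (∑ i, c i • b i) := by
      rw [map_sum]
      refine Finset.sum_congr rfl fun i _ => ?_
      rw [map_smul, hb]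
    rw [h1, ← sub_eq_zero, ← map_sub, Submodule.mkQ_apply, Submodule.Quotient.mk_eq_zero,
      Submodule.mem_comap]
    simp
  refine ⟨fun i => B.repr ((W.comap V.subtype).mkQ ⟨x, hx⟩) i, ?_, fun c hc => ?_⟩
  · refine (key _).mpr ?_
    exact (B.sum_repr _).symm
  · have h2 := (key c).mp hc
    funext i
    rw [h2, B.repr_sum_self]

/-- a complement of `I^(n+1)` spanned by few elements -/
theorem exists_span (hAUGB : PRP.AUGBStmt) (hGENL : PRP.GENLStmt) (p : ℕ) [Fact p.Prime] (P : Type)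
    [Group P] (k : ℕ) (s : Fin k → P) (hs : Subgroup.closure (Set.range s) = ⊤) (n : ℕ) :
    ∃ V : Finset (MonoidAlgebra (ZMod p) P), V.card ≤ (k + 1) ^ n ∧
      Submodule.span (ZMod p) (V : Set (MonoidAlgebra (ZMod p) P)) ⊔ (PRP.augI p P) ^ (n + 1) =
        ⊤ := by
  classical
  obtain ⟨hA1, hA2, _, _, _⟩ := hAUGB p P
  obtain ⟨hG1, _⟩ := hGENL p P k s hs
  induction n with
  | zero =>
    refine ⟨{1}, by simp, ?_⟩
    rw [eq_top_iff]
    intro f _
    obtain ⟨c, hc⟩ := hA2 f
    rw [Submodule.mem_sup]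
    refine ⟨algebraMap (ZMod p) _ c, ?_, f - algebraMap (ZMod p) _ c, ?_, by abel⟩
    · rw [Algebra.algebraMap_eq_smul_one]
      exact Submodule.smul_mem _ _ (Submodule.subset_span (by simp))
    · rw [zero_add, pow_one]
      exact hc
  | succ n ih =>
    obtain ⟨V, hV, hVt⟩ := ih
    set V' : Finset (MonoidAlgebra (ZMod p) P) := insert 1 (Finset.univ.biUnion fun j : Fin k =>
      V.image fun v => v * (MonoidAlgebra.of (ZMod p) P (s j) - 1)) with hV'
    refine ⟨V', ?_, ?_⟩
    · calc V'.card ≤ (Finset.univ.biUnion fun j : Fin k =>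
            V.image fun v => v * (MonoidAlgebra.of (ZMod p) P (s j) - 1)).card + 1 :=
          Finset.card_insert_le _ _
        _ ≤ k * (k + 1) ^ n + 1 := by
          have h1 := Finset.card_biUnion_le_card_mul (Finset.univ : Finset (Fin k))
            (fun j : Fin k => V.image fun v => v * (MonoidAlgebra.of (ZMod p) P (s j) - 1))
            ((k + 1) ^ n) (fun j _ => Finset.card_image_le.trans hV)
          rw [Finset.card_univ, Fintype.card_fin] at h1
          omega
        _ ≤ (k + 1) ^ (n + 1) := by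
          have h2 : 1 ≤ (k + 1) ^ n := Nat.one_le_pow _ _ (by omega)
          rw [pow_succ]
          nlinarith
    · have hmul : ∀ (j : Fin k), ∀ v ∈ Submodule.span (ZMod p) (V : Set (MonoidAlgebra (ZMod p) P)),
          v * (MonoidAlgebra.of (ZMod p) P (s j) - 1) ∈
            Submodule.span (ZMod p) (V' : Set (MonoidAlgebra (ZMod p) P)) := by
        intro j v hv
        induction hv using Submodule.span_induction with
        | mem x hx =>
          refine Submodule.subset_span ?_
          rw [hV', Finset.coe_insert, Finset.coe_biUnion]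
          right
          simp only [Set.mem_iUnion]
          exact ⟨j, by simp, Finset.mem_coe.mpr (Finset.mem_image_of_mem _ hx)⟩
        | zero => rw [zero_mul]; exact Submodule.zero_mem _
        | add x y _ _ hx hy => rw [add_mul]; exact Submodule.add_mem _ hx hy
        | smul a x _ hx => rw [smul_mul_assoc]; exact Submodule.smul_mem _ _ hx
      have hone : (1 : MonoidAlgebra (ZMod p) P) ∈
          Submodule.span (ZMod p) (V' : Set (MonoidAlgebra (ZMod p) P)) :=
        Submodule.subset_span (Finset.mem_coe.mpr (Finset.mem_insert_self _ _))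
      rw [eq_top_iff]
      intro f _
      obtain ⟨c, hc⟩ := hA2 f
      obtain ⟨d, hd⟩ := hG1 _ hc
      have hdec : ∀ j, ∃ v ∈ Submodule.span (ZMod p) (V : Set (MonoidAlgebra (ZMod p) P)),
          ∃ w ∈ (PRP.augI p P) ^ (n + 1), v + w = d j := by
        intro j
        have h1 : d j ∈ Submodule.span (ZMod p) (V : Set (MonoidAlgebra (ZMod p) P)) ⊔
            (PRP.augI p P) ^ (n + 1) := by
          rw [hVt]; exact Submodule.mem_top
        exact Submodule.mem_sup.mp h1
      choose v hv w hw hvw using hdec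
      have hf : f = (algebraMap (ZMod p) _ c +
          ∑ j, v j * (MonoidAlgebra.of (ZMod p) P (s j) - 1)) +
          ∑ j, w j * (MonoidAlgebra.of (ZMod p) P (s j) - 1) := by
        rw [add_assoc, ← Finset.sum_add_distrib]
        have h2 : ∑ j, (v j * (MonoidAlgebra.of (ZMod p) P (s j) - 1) +
            w j * (MonoidAlgebra.of (ZMod p) P (s j) - 1)) =
            ∑ j, d j * (MonoidAlgebra.of (ZMod p) P (s j) - 1) := by
          refine Finset.sum_congr rfl fun j _ => ?_
          rw [← add_mul, hvw j]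
        rw [h2, ← hd]
        abel
      rw [hf]
      refine Submodule.add_mem _ (Submodule.mem_sup_left ?_) (Submodule.mem_sup_right ?_)
      · refine Submodule.add_mem _ ?_ (Submodule.sum_mem _ fun j _ => hmul j _ (hv j))
        rw [Algebra.algebraMap_eq_smul_one]
        exact Submodule.smul_mem _ _ hone
      · refine Submodule.sum_mem _ fun j _ => ?_
        rw [pow_succ]
        exact Submodule.mul_mem_mul (hw j) (hA1 (s j))

theorem finrank_bound (hAUGB : PRP.AUGBStmt) (hGENL : PRP.GENLStmt) (p : ℕ) [Fact p.Prime]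
    (P : Type) [Group P] (k : ℕ) (s : Fin k → P) (hs : Subgroup.closure (Set.range s) = ⊤)
    (n : ℕ) (hn : 1 ≤ n) :
    Module.finrank (ZMod p) (MonoidAlgebra (ZMod p) P ⧸ (PRP.augI p P) ^ n) ≤ (k + 1) ^ n := by
  classical
  obtain ⟨m, rfl⟩ : ∃ m, n = m + 1 := ⟨n - 1, by omega⟩
  obtain ⟨V, hV, hVt⟩ := exists_span hAUGB hGENL p P k s hs m
  have h1 : Submodule.span (ZMod p)
      ((V.image ((PRP.augI p P) ^ (m + 1)).mkQ : Finset _) :
        Set (MonoidAlgebra (ZMod p) P ⧸ (PRP.augI p P) ^ (m + 1))) = ⊤ := by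
    rw [Finset.coe_image, ← Submodule.map_span, eq_top_iff]
    intro x _
    obtain ⟨f, rfl⟩ := Submodule.mkQ_surjective _ x
    have h1 : f ∈ Submodule.span (ZMod p) (V : Set (MonoidAlgebra (ZMod p) P)) ⊔
        (PRP.augI p P) ^ (m + 1) := by
      rw [hVt]; exact Submodule.mem_top
    obtain ⟨v, hv, w, hw, rfl⟩ := Submodule.mem_sup.mp h1
    refine ⟨v, hv, ?_⟩
    rw [map_add]
    have h2 : ((PRP.augI p P) ^ (m + 1)).mkQ w = 0 := by
      rw [Submodule.mkQ_apply, Submodule.Quotient.mk_eq_zero]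
      exact hw
    rw [h2, add_zero]
  have h2 := finrank_span_finset_le_card (R := ZMod p)
    (V.image ((PRP.augI p P) ^ (m + 1)).mkQ)
  rw [Set.finrank, h1, finrank_top] at h2
  calc _ ≤ _ := h2
    _ ≤ V.card := Finset.card_image_le
    _ ≤ (k + 1) ^ m := hV
    _ ≤ (k + 1) ^ (m + 1) := Nat.pow_le_pow_right (by omega) (by omega)

end Pool.Agent.H30.SXC
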