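import Pool.Agent.H1.PRP.NILP
import Pool.Agent.H40.PRP.AUGB
import Pool.Agent.H58.PRP.GENL
import Pool.Agent.H74.PRP.FDIM
import Pool.Agent.H31.PRP.BASISP
import Pool.Agent.H7.PRP.SUBX
import Pool.Agent.H64.PRP.CENT
import Pool.Agent.H40.PRP.GAM
import Pool.Agent.H2.PRP.FREE
import Pool.Agent.H17.PRP.LIMP
import Pool.Agent.H64.PRP.CPT
import Pool.Agent.H17.PRP.LCF
import Pool.Agent.H82.PRP.UNIQ
import Pool.Agent.H82.PRP.DINV
import Pool.Agent.H2.PRP.STEP
import Pool.Agent.H64.PRP.LIFT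
import Pool.Agent.H74.PRP.LFIN
import Pool.Agent.H82.PRP.SYS
import Pool.Agent.H1.PRP.CMP
import Pool.Agent.H82.PRP.FACT
import Pool.Agent.H46.PRP.JUN
import Pool.Agent.H1.PRP.TERM
import Pool.Agent.H82.PRP.SOLQ
import Pool.Agent.H83.PRP.VREL
import Pool.Agent.H82.PRP.N1D
import Pool.Agent.H82.PRP.QSOL
import Pool.Agent.H40.PRP.LIDX
import Pool.Agent.H40.PRP.BQ
import Pool.Agent.H62.PRP.EIDX
import Pool.Agent.H82.PRP.NIDX
import Pool.Agent.H7.PRP.REL
import Pool.Agent.H83.PRP.GIDX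
import Pool.Agent.H20.PRP.GUP
import Pool.Agent.H52.PRP.CLO
import Pool.Agent.H31.PRP.AUP
import Pool.Agent.H46.PRP.ALO
import Pool.Agent.H83.PRP.LIM
import Pool.Agent.H76.PRP.DD
import Pool.Agent.H76.PRP.ACY
import Pool.Agent.H27.PRP.SHI
import Pool.Agent.H20.PRP.RNK
import Pool.Agent.H82.PRP.Fin
import Pool.Agent.H82.PRP.Growth
import Pool.Agent.H33.PRP.PBW
import Pool.Agent.H33.PRP.EXT
import Pool.Agent.H68.PRP.LPR
import Pool.Agent.H68.PRP.QUO
import Pool.Agent.H71.PRP.RES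
import Pool.Agent.H82.PRP.EXA

/-!
# Pro-p groups of cohomological dimension two and subexponential growth (MP_9180b3_al)

For every prime `p` there is a pro-`p` group, topologically generated by three elements, of
cohomological dimension at most two, of infinite rank (hence not `p`-adic analytic), with
`lim a_n(G)^(1/n) = 1`. This answers Q1 of the problem (yes).
-/

namespace Pool.Agent.H30.SXC.Old

open Pool.Agent.H82.PRP Filter Topology

/-- For every prime `p` there is a 3-generated pro-`p` group `G` with `H^m(G, F_p) = 0` for all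
`m > 2`, of infinite rank, with `lim a_n(G)^(1/n) = 1`. -/
theorem old (p : ℕ) [Fact p.Prime] :
    ∃ (G : Type) (_ : Group G) (_ : TopologicalSpace G),
      IsTopologicalGroup G ∧ CompactSpace G ∧ T2Space G ∧ TotallyDisconnectedSpace G ∧
      IsProP p G ∧ GenBy G 3 ∧ CdLE p G 2 ∧ ¬ FiniteRank G ∧
      Tendsto (fun n : ℕ => (growthSeq p G n : ℝ) ^ (1 / (n : ℝ))) atTop (𝓝 1) := by
  have hGENL : GENLStmt := genl_thm augb_thm
  have hFDIM : FDIMStmt := fdim_thm augb_thm hGENL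
  have hPBW : PBWStmt := pbw_thm augb_thm basisp_thm
  have hGAM : GAMStmt := gam_thm augb_thm hFDIM nilp_thm
  have hFREE : FREEStmt := free_thm hGAM augb_thm
  have hSYS : SYSStmt := sys_thm lfin_thm
  have hCMP : CMPStmt := cmp_thm lpr_thm
  have hSTEP : STEPStmt := step_thm ext_thm uniq_thm dinv_thm
  have hLIFT : LIFTStmt := lift_thm hSTEP cent_thm
  have hFACT : FACTStmt := fact_thm hSYS hCMP cpt_thm
  have hSOLQ : SOLQStmt := solq_thm jun_thm term_thm
  have hVREL : VRELStmt := vrel_thm limp_thm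
  have hN1D : N1DStmt := n1d_thm uniq_thm
  have hQSOL : QSOLStmt := qsol_thm hSOLQ hVREL hN1D hFACT hCMP ext_thm dinv_thm
  have hLIDX : LIDXStmt := lidx_thm hSYS hCMP
  have hBQ : BQStmt := bq_thm hPBW subx_thm hLIDX hSYS hCMP lfin_thm
  have hEIDX : EIDXStmt := eidx_thm hCMP lfin_thm
  have hNIDX : NIDXStmt := nidx_thm cpt_thm hCMP hEIDX hLIDX hBQ
  have hGUP : GUPStmt := gup_thm hPBW
  have hCLO : CLOStmt := clo_thm augb_thm hGENL
  have hAUP : AUPStmt := aup_thm hCLO augb_thm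
  have hALO : ALOStmt := alo_thm augb_thm
  have hRES : RESStmt := res_thm acy_thm (shi_thm dd_thm)
  have hEXA : EXAStmt := exa_thm lcf_thm ext_thm uniq_thm dinv_thm
  obtain ⟨G, iG, iT, h⟩ := fin_thm hFREE hSYS hCMP hQSOL rel_thm hLIFT hEXA hRES
    (quo_thm lcf_thm) rnk_thm hNIDX gidx_thm hGUP subx_thm hAUP hALO lim_thm p
  refine ⟨G, iG, iT, ?_⟩
  simp only [growthSeq_eq]
  exact h

end Pool.Agent.H30.SXC.Old
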