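import Mathlib
import Pool.Agent.H30.SXC.Defs
import Pool.Agent.H30.SXC.Conv
import Pool.Agent.H30.SXC.Old

open Filter Topology
open Pool.Agent.H82

namespace Pool.Agent.H30.SXC

/-- finite quotients are generated by the images of topological generators -/
lemma closure_quot {G : Type} [Group G] [TopologicalSpace G] [IsTopologicalGroup G] {k : ℕ}
    (s : Fin k → G)
    (hs : ∀ U : Set G, IsOpen U → U.Nonempty →
      (U ∩ (Subgroup.closure (Set.range s) : Set G)).Nonempty)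
    (U : OpenNormalSubgroup G) :
    Subgroup.closure (Set.range fun i => (s i : G ⧸ U.toSubgroup)) = ⊤ := by
  rw [eq_top_iff]
  intro x _
  obtain ⟨g, rfl⟩ := QuotientGroup.mk_surjective x
  have hU : IsOpen (U.toSubgroup : Set G) := U.toOpenSubgroup.isOpen
  obtain ⟨y, hy, hy'⟩ := hs ((fun h => g⁻¹ * h) ⁻¹' (U.toSubgroup : Set G))
    (hU.preimage (continuous_const_mul g⁻¹)) ⟨g, by simp [one_mem]⟩
  have h1 : (QuotientGroup.mk g : G ⧸ U.toSubgroup) = QuotientGroup.mk y :=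
    QuotientGroup.eq.mpr hy
  rw [h1]
  have h2 : (Subgroup.closure (Set.range s)).map (QuotientGroup.mk' U.toSubgroup) =
      Subgroup.closure (Set.range fun i => (s i : G ⧸ U.toSubgroup)) := by
    rw [MonoidHom.map_closure]
    congr 1
    ext z
    simp
  rw [← h2]
  exact ⟨y, hy', rfl⟩

theorem main (p : ℕ) [Fact p.Prime] :
    ∃ (G : Type) (_ : Group G) (_ : TopologicalSpace G),
      IsProP p G ∧ GenBy (⊤ : Subgroup G) 3 ∧ CdLE p G 2 ∧ ¬ FiniteRank G ∧
      ∃ (R : Type) (_ : Ring R) (_ : Algebra (ZMod p) R) (I : Set R) (a : ℕ → ℕ),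
        IsAugIdeal p G R I ∧ (∀ n, 1 ≤ n → DimMod p (power p I n) (power p I (n + 1)) (a n)) ∧
        Tendsto (fun n : ℕ => (a n : ℝ) ^ (1 / (n : ℝ))) atTop (𝓝 1) := by
  obtain ⟨G, iG, iT, h1, h2, h3, h4, hP, hG, hC, hF, hlim⟩ := Old.old p
  refine ⟨G, iG, iT, isProP_of hP, genBy_top hG, cdLE_of hC, not_finiteRank hF, PRP.CGA p G,
    inferInstance, inferInstance, (PRP.augIhat p G : Set (PRP.CGA p G)),
    fun n => PRP.growthSeq p G n, isAugIdeal, fun n hn => ?_, hlim⟩
  have hGENL : PRP.GENLStmt := PRP.genl_thm PRP.augb_thm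
  have hCLO : PRP.CLOStmt := PRP.clo_thm PRP.augb_thm hGENL
  have hfin := (PRP.aup_thm hCLO PRP.augb_thm p G 3 hG (fun n => (3 + 1) ^ n) (fun U n hn => by
    obtain ⟨s, hs⟩ := hG
    exact finrank_bound PRP.augb_thm hGENL p _ 3 _ (closure_quot s hs U) n hn) n hn).1
  change DimMod p _ _ (PRP.growthSeq p G n)
  rw [power_eq, power_eq, PRP.growthSeq_eq]
  exact dimMod_of_finite _ _

end Pool.Agent.H30.SXC
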